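import Mathlib

/-!
# Achievement sets in the plane are regularly closed or nowhere dense

If an achievement set `E v` has an interior point, then so has each tail achievement set, because
`E v` is a finite union of translates of it. A point of `E v` is approximated by the finite subsums
of its representation, and the translate of the tail set by such a finite subsum lies in `E v`, has
interior points, and is small.
-/

set_option autoImplicit false

namespace Pool.Agent.Results.MP_69f3e4_an.PlanarDichotomy

open Set Filter Topology

variable {V : Type*} [NormedAddCommGroup V]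

/-- The achievement set of `v`: the set of all subsums of the series of `v`. -/
def achievementSet (v : ℕ → V) : Set V :=
  {x | ∃ e : ℕ → Bool, x = ∑' n, if e n = true then v n else 0}

theorem summable_sub [CompleteSpace V] {v : ℕ → V} (hv : Summable fun n => ‖v n‖) (e : ℕ → Bool) :
    Summable fun n => if e n = true then v n else 0 := by
  refine Summable.of_norm_bounded hv fun n => ?_
  split_ifs <;> simp

theorem norm_sub_le [CompleteSpace V] {v : ℕ → V} (hv : Summable fun n => ‖v n‖) (e : ℕ → Bool) :
    ‖∑' n, (if e n = true then v n else 0)‖ ≤ ∑' n, ‖v n‖ := by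
  refine tsum_of_norm_bounded hv.hasSum fun n => ?_
  split_ifs <;> simp

theorem isCompact_achievementSet [CompleteSpace V] {v : ℕ → V} (hv : Summable fun n => ‖v n‖) :
    IsCompact (achievementSet v) := by
  have h1 : Continuous fun e : ℕ → Bool => ∑' n, if e n = true then v n else 0 := by
    refine continuous_tsum (fun n => ?_) hv fun n e => ?_
    · exact (continuous_of_discreteTopology (f := fun b : Bool => if b = true then v n else 0)).comp
        (continuous_apply n)
    · split_ifs <;> simp
  have h2 : achievementSet v = range fun e : ℕ → Bool => ∑' n, if e n = true then v n else 0 := by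
    ext x
    constructor
    · rintro ⟨e, rfl⟩; exact ⟨e, rfl⟩
    · rintro ⟨e, rfl⟩; exact ⟨e, rfl⟩
  rw [h2]
  exact isCompact_range h1

/-- Splitting off the first term. -/
theorem achievementSet_eq [CompleteSpace V] {v : ℕ → V} (hv : Summable fun n => ‖v n‖) :
    achievementSet v = achievementSet (fun k => v (k + 1)) ∪
      (fun t => v 0 + t) '' achievementSet (fun k => v (k + 1)) := by
  ext x
  constructor
  · rintro ⟨e, rfl⟩
    have h1 : (∑' n, if e n = true then v n else 0) =
        (if e 0 = true then v 0 else 0) + ∑' n, if e (n + 1) = true then v (n + 1) else 0 :=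
      (summable_sub hv e).tsum_eq_zero_add
    rw [h1]
    by_cases h0 : e 0 = true
    · right
      rw [if_pos h0]
      exact ⟨_, ⟨fun k => e (k + 1), rfl⟩, rfl⟩
    · left
      rw [if_neg h0, zero_add]
      exact ⟨fun k => e (k + 1), rfl⟩
  · rintro (⟨e, rfl⟩ | ⟨_, ⟨e, rfl⟩, rfl⟩)
    · refine ⟨fun n => Nat.casesOn n false e, ?_⟩
      rw [(summable_sub hv _).tsum_eq_zero_add]
      simp
    · refine ⟨fun n => Nat.casesOn n true e, ?_⟩
      rw [(summable_sub hv _).tsum_eq_zero_add]
      simp

theorem nonempty_interior_tail [CompleteSpace V] {v : ℕ → V} (hv : Summable fun n => ‖v n‖)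
    (h : (interior (achievementSet v)).Nonempty) (n : ℕ) :
    (interior (achievementSet (fun k => v (k + n)))).Nonempty := by
  induction n with
  | zero => simpa using h
  | succ n ih =>
    have hs : Summable fun k => ‖v (k + n)‖ := (summable_nat_add_iff n).2 hv
    have hs' : Summable fun k => ‖v (k + (n + 1))‖ := (summable_nat_add_iff (n + 1)).2 hv
    have e1 := achievementSet_eq hs
    have e2 : (fun k => v (k + 1 + n)) = fun k => v (k + (n + 1)) := by
      ext k; congr 1; omega
    simp only [e2] at e1
    by_contra hne
    rw [not_nonempty_iff_eq_empty] at hne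
    have hcl : IsClosed (achievementSet fun k => v (k + (n + 1))) :=
      (isCompact_achievementSet hs').isClosed
    have h3 : interior ((fun t => v (0 + n) + t) '' achievementSet fun k => v (k + (n + 1))) = ∅ := by
      have := (Homeomorph.addLeft (v (0 + n))).image_interior
        (achievementSet fun k => v (k + (n + 1)))
      rw [hne, image_empty] at this
      exact this.symm
    rw [e1, interior_union_isClosed_of_interior_empty hcl h3, hne] at ih
    exact ih.ne_empty rfl

/-- Finite subsums plus tail subsums are subsums. -/
theorem add_mem [CompleteSpace V] {v : ℕ → V} (hv : Summable fun n => ‖v n‖) (e : ℕ → Bool)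
    (n : ℕ) {t : V} (ht : t ∈ achievementSet (fun k => v (k + n))) :
    (∑ i ∈ Finset.range n, if e i = true then v i else 0) + t ∈ achievementSet v := by
  obtain ⟨d, rfl⟩ := ht
  refine ⟨fun i => if i < n then e i else d (i - n), ?_⟩
  rw [← (summable_sub hv _).sum_add_tsum_nat_add n]
  congr 1
  · refine Finset.sum_congr rfl fun i hi => ?_
    have : i < n := Finset.mem_range.1 hi
    simp [this]
  · refine tsum_congr fun i => ?_
    simp

theorem closure_interior [CompleteSpace V] {v : ℕ → V} (hv : Summable fun n => ‖v n‖)
    (h : (interior (achievementSet v)).Nonempty) :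
    closure (interior (achievementSet v)) = achievementSet v := by
  apply subset_antisymm
  · exact (closure_mono interior_subset).trans_eq (isCompact_achievementSet hv).isClosed.closure_eq
  · rintro x ⟨e, rfl⟩
    have hz : ∀ n, ∃ z, z ∈ interior (achievementSet (fun k => v (k + n))) :=
      fun n => nonempty_interior_tail hv h n
    choose z hz using hz
    have hnorm : ∀ n, ‖z n‖ ≤ ∑' k, ‖v (k + n)‖ := by
      intro n
      obtain ⟨d, hd⟩ := interior_subset (hz n)
      rw [hd]
      have hs : Summable fun k => ‖v (k + n)‖ := (summable_nat_add_iff n).2 hv
      exact norm_sub_le (v := fun k => v (k + n)) hs d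
    have hz0 : Tendsto z atTop (𝓝 0) := by
      refine squeeze_zero_norm hnorm ?_
      exact tendsto_sum_nat_add fun k => ‖v k‖
    have hlim : Tendsto (fun n => (∑ i ∈ Finset.range n, if e i = true then v i else 0) + z n) atTop
        (𝓝 (∑' n, if e n = true then v n else 0)) := by
      have := (summable_sub hv e).hasSum.tendsto_sum_nat.add hz0
      simpa using this
    refine mem_closure_of_tendsto hlim (Eventually.of_forall fun n => ?_)
    set s := ∑ i ∈ Finset.range n, if e i = true then v i else 0 with hs
    have hsub : (fun t => s + t) '' interior (achievementSet (fun k => v (k + n))) ⊆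
        interior (achievementSet v) := by
      refine interior_maximal ?_ ?_
      · rintro _ ⟨t, ht, rfl⟩
        exact add_mem hv e n (interior_subset ht)
      · exact (Homeomorph.addLeft s).isOpenMap _ isOpen_interior
    exact hsub ⟨z n, hz n, rfl⟩

/-- For every sequence in the plane with summable norms, the achievement set is regularly closed
(equal to the closure of its interior) or nowhere dense. -/
theorem result (v : ℕ → EuclideanSpace ℝ (Fin 2)) (hv : Summable fun n => ‖v n‖) :
    closure (interior (achievementSet v)) = achievementSet v ∨ IsNowhereDense (achievementSet v) := by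
  by_cases h : (interior (achievementSet v)).Nonempty
  · exact Or.inl (closure_interior hv h)
  · right
    rw [not_nonempty_iff_eq_empty] at h
    rw [IsNowhereDense, (isCompact_achievementSet hv).isClosed.closure_eq, h]

end Pool.Agent.Results.MP_69f3e4_an.PlanarDichotomy
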